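import Pool.Agent.W416.HW.Ext

set_option autoImplicit false

/-!
A symmetric numerical semigroup with Frobenius number `321` and the gap `24`, found with a SAT
solver, which satisfies the conditions of `Data`.
-/

namespace Pool.Agent.W416.HW

/-- Bit mask of the elements up to `321`. -/
def mask : ℕ :=
  4271974071841820164790043412283862977639803903141351825177080319427686653570270108112691948158977

/-- Bit mask of the gaps. -/
def comp : ℕ :=
  4271974071841820164790043412394345480771014186285259254611086111861192249552292091979156399587326

/-- Witnesses for the product property, ten bits each. -/
def wit : ℕ :=
  4433712231088940937391393696767718574802408142805747100031522510231977401952596342675149599812804424250564251010068004445549332578616148967741780684561612460108545795476467584593382281773530243282437505295443455193679271702951803739851006755822028747007370774727317042525909877898486626144948943618564320977823468823647243531481519528957064050566676248369802372104129805486300687587296388047094323741749570275750741907365099841433268443200260689428365257964887603418949334841779115170057726649140249974547533462927887767209345095789607655140167152199031875410876699676525544852058258883711686269562834780670237911781710670505676674740108166491119489611186121017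05031373689415511181049245164147919863499110101523185001750054072385540638915109419186807630710505192676496793283622484039287864116363708575279878078407431939868641978327760777495331498640360043954562297582067229494453246093505940029440074739001337990656502727479789552199912815893557578415854120575595747323947772280542150667236754175824440400434499727850203605035955186747034700834079056100251331196455046394479353767801791147745531454877203923317595979340019123956722384715710566587345658614481500274383618839661355516390906512365382011737814978316594261780062404490454620805476513833482694116248854573356032374199417169024635926823545830247235817477050997484792290876773549596836862210040408326658527962351942418357961939475296470228552082527946124797697970406906792561182825816655960718858651507925314862587488173561904040124106049674678521685588321269349339838408496653444976323199142519519610290246772502769052095085965399353602541022043032962021535503825814023318779614384291547718680604251115000212862398046794219430619325941556514905609618279365476889419549034870218486614390794572106669296973085998181984280833614165393941523494044328280661698189246338027278389163323317380299717624613501696914813978431239340923672614621858099825129576019201248689878859724905786657510344622080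

/-- Membership in the semigroup. -/
def gb (n : ℕ) : Bool := Nat.blt 321 n || mask.testBit n

theorem gb_big {n : ℕ} (h : 321 < n) : gb n = true := by
  unfold gb
  rw [show Nat.blt 321 n = true from by rw [Nat.blt_eq]; exact h, Bool.true_or]

theorem gb_small {n : ℕ} (h : n ≤ 321) : gb n = mask.testBit n := by
  unfold gb
  rw [show Nat.blt 321 n = false from by
    rw [Bool.eq_false_iff, ne_eq, Nat.blt_eq]; omega, Bool.false_or]

/-- The semigroup. -/
def Gs (n : ℕ) : Prop := gb n = true

theorem closure_check :
    (∀ i < 322, mask.testBit i = true → (mask <<< i) &&& comp = 0) ∧
      mask ||| comp = 2 ^ 322 - 1 := by
  decide +kernel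

theorem symm_check : ∀ n < 322, gb n = !gb (321 - n) := by
  decide +kernel

/-- The witness for the exponent `n`. -/
def wn (n : ℕ) : ℕ := (wit >>> (10 * n)) % 1024

/-- The product condition at the exponent `n`. -/
def pc (n : ℕ) : Bool :=
  !(gb n && gb (n + 24) && gb (n + 48)) ||
    (Nat.ble (wn n) n && gb (wn n) && gb (wn n + 24) && gb (n - wn n) && gb (n - wn n + 24))

theorem prod_check : ∀ n < 648, pc n = true := by
  decide +kernel

theorem gb_add (i j : ℕ) (hi : gb i = true) (hj : gb j = true) : gb (i + j) = true := by
  by_cases h : 321 < i + j
  · exact gb_big h
  have h1 : i ≤ 321 := by omega
  have h2 : j ≤ 321 := by omega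
  have h3 : i + j ≤ 321 := by omega
  rw [gb_small h1] at hi
  rw [gb_small h2] at hj
  rw [gb_small h3]
  have h4 := closure_check.1 i (by omega) hi
  have h5 := congrArg (fun m => Nat.testBit m (i + j)) h4
  have h6 := congrArg (fun m => Nat.testBit m (i + j)) closure_check.2
  simp only [Nat.testBit_and, Nat.testBit_or, Nat.testBit_shiftLeft, Nat.zero_testBit,
    Nat.testBit_two_pow_sub_one] at h5 h6
  have h7 : i + j - i = j := by omega
  rw [h7, hj] at h5
  have h8 : decide (i + j ≥ i) = true := by simp
  rw [h8] at h5
  have h9 : decide (i + j < 322) = true := by
    rw [decide_eq_true_iff]; omega
  rw [h9] at h6
  simp only [Bool.and_self, Bool.true_and] at h5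
  rw [h5, Bool.or_false] at h6
  exact h6

/-- The combinatorial data. -/
theorem dataS : Data Gs 321 24 1024 where
  zero := by unfold Gs; decide +kernel
  add := fun i j hi hj => gb_add i j hi hj
  big := fun n h => gb_big h
  symm := by
    intro n hn
    unfold Gs
    rw [symm_check n (by omega)]
    cases gb (321 - n) <;> simp
  hx := by unfold Gs; decide +kernel
  prod := by
    intro n h1 h2 h3
    unfold Gs at h1 h2 h3 ⊢
    by_cases hn : n < 648
    · have h4 := prod_check n hn
      unfold pc at h4
      rw [h1, h2, h3] at h4
      simp only [Bool.and_self, Bool.not_true, Bool.false_or, Bool.and_eq_true,
        Nat.ble_eq] at h4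
      obtain ⟨⟨⟨⟨a1, a2⟩, a3⟩, a4⟩, a5⟩ := h4
      exact ⟨wn n, n - wn n, by omega, Nat.mod_lt _ (by norm_num), a2, a3, a4, a5⟩
    · exact ⟨96, n - 96, by omega, by norm_num, by decide +kernel, by decide +kernel,
        gb_big (by omega), gb_big (by omega)⟩

end Pool.Agent.W416.HW
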