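import Mathlib

set_option autoImplicit false
open TensorProduct PowerSeries

/-!
Symmetric numerical semigroup rings inside `ℚ⟦t⟧` and two-generated monomial fractional ideals.
-/

namespace Pool.Agent.W416.HW

noncomputable section

/-- Formal power series over the rationals. -/
abbrev V : Type := PowerSeries ℚ

/-- The exponents of `f` lie in `A`. -/
def Sup (A : ℕ → Prop) (f : V) : Prop := ∀ n, ¬ A n → coeff n f = 0

theorem Sup.add {A : ℕ → Prop} {f g : V} (hf : Sup A f) (hg : Sup A g) : Sup A (f + g) := by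
  intro n hn; rw [map_add, hf n hn, hg n hn, add_zero]

theorem Sup.neg {A : ℕ → Prop} {f : V} (hf : Sup A f) : Sup A (-f) := by
  intro n hn; rw [map_neg, hf n hn, neg_zero]

theorem Sup.zero {A : ℕ → Prop} : Sup A (0 : V) := by intro n _; simp

theorem Sup.mul {A B C : ℕ → Prop} (h : ∀ i j, A i → B j → C (i + j)) {f g : V}
    (hf : Sup A f) (hg : Sup B g) : Sup C (f * g) := by
  intro n hn
  rw [coeff_mul]
  apply Finset.sum_eq_zero
  intro p hp
  replace hp := Finset.HasAntidiagonal.mem_antidiagonal.1 hp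
  by_cases h1 : A p.1
  · by_cases h2 : B p.2
    · exact absurd (hp ▸ h _ _ h1 h2) hn
    · rw [hg _ h2, mul_zero]
  · rw [hf _ h1, zero_mul]

theorem Sup.mono {A B : ℕ → Prop} (h : ∀ i, A i → B i) {f : V} (hf : Sup A f) : Sup B f :=
  fun n hn => hf n (fun hA => hn (h n hA))

theorem Sup.X_pow (A : ℕ → Prop) (m : ℕ) (h : A m) : Sup A ((X : V) ^ m) := by
  intro n hn
  rw [coeff_X_pow, if_neg]
  rintro rfl
  exact hn h

/-- multiplying by `X ^ d` shifts the exponents -/
theorem Sup.X_mul {A C : ℕ → Prop} (d : ℕ) (h : ∀ n, A n → C (n + d)) {f : V} (hf : Sup A f) :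
    Sup C (X ^ d * f) :=
  Sup.mul (A := fun i => i = d) (by
    intro i j hi hj
    rw [hi, add_comm]; exact h j hj) (Sup.X_pow (fun i => i = d) d rfl) hf

theorem sup_of_X_mul {A C : ℕ → Prop} (d : ℕ) (h : ∀ n, C (n + d) → A n) {f : V}
    (hf : Sup C (X ^ d * f)) : Sup A f := by
  intro n hn
  have := hf (n + d) (fun h' => hn (h n h'))
  rwa [coeff_X_pow_mul] at this

/-- Combinatorial data of the counterexamples: `G` is a symmetric numerical semigroup with
Frobenius number `φ`, `x` is a gap, and every triple `n, n + x, n + 2 x` in `G` is a sum of two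
pairs `j, j + x` and `k, k + x` in `G`. -/
structure Data (G : ℕ → Prop) (φ x B : ℕ) : Prop where
  zero : G 0
  add : ∀ i j, G i → G j → G (i + j)
  big : ∀ n, φ < n → G n
  symm : ∀ n, n ≤ φ → (G n ↔ ¬ G (φ - n))
  hx : ¬ G x
  prod : ∀ n, G n → G (n + x) → G (n + 2 * x) →
    ∃ j k, j + k = n ∧ j < B ∧ G j ∧ G (j + x) ∧ G k ∧ G (k + x)

variable {G : ℕ → Prop} {φ x B : ℕ}

theorem Data.frob (D : Data G φ x B) : ¬ G φ := by
  have := (D.symm 0 (Nat.zero_le _)).mp D.zero
  simpa using this

/-- The semigroup ring. -/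
def R (D : Data G φ x B) : Subalgebra ℚ V where
  carrier := {f | Sup G f}
  mul_mem' := fun {a b} ha hb => Sup.mul D.add ha hb
  add_mem' := fun {a b} ha hb => Sup.add ha hb
  algebraMap_mem' := by
    intro r n hn
    rw [PowerSeries.algebraMap_apply, Algebra.algebraMap_self_apply, coeff_C, if_neg]
    rintro rfl
    exact hn D.zero

theorem mem_R (D : Data G φ x B) {f : V} : f ∈ R D ↔ Sup G f := Iff.rfl

variable (G x) in
/-- Exponents of the fractional ideal generated by `1` and `X ^ x`. -/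
def E (n : ℕ) : Prop := G n ∨ ∃ m, m + x = n ∧ G m

theorem E_add (D : Data G φ x B) (i j : ℕ) (hi : G i) (hj : E G x j) : E G x (i + j) := by
  rcases hj with hj | ⟨m, rfl, hm⟩
  · exact Or.inl (D.add i j hi hj)
  · exact Or.inr ⟨i + m, by ring, D.add i m hi hm⟩

/-- The module: the fractional ideal generated by `1` and `X ^ x`. -/
def M (D : Data G φ x B) : Submodule (R D) V where
  carrier := {f | Sup (E G x) f}
  add_mem' := fun {a b} ha hb => Sup.add ha hb
  zero_mem' := Sup.zero
  smul_mem' := by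
    intro c y hy
    exact Sup.mul (E_add D) c.2 hy

theorem mem_M (D : Data G φ x B) {f : V} : f ∈ M D ↔ Sup (E G x) f := Iff.rfl

theorem smul_def (D : Data G φ x B) (r : R D) (f : V) : r • f = (r : V) * f := rfl

theorem inv_mem (D : Data G φ x B) {f : V} (hf : Sup G f) : Sup G f⁻¹ := by
  by_cases h0 : constantCoeff f = 0
  · rw [PowerSeries.inv_eq_zero.mpr h0]; exact Sup.zero
  intro n
  induction n using Nat.strong_induction_on with
  | _ n ih =>
    intro hn
    rw [coeff_inv, if_neg (by rintro rfl; exact hn D.zero)]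
    rw [Finset.sum_eq_zero, mul_zero]
    intro p hp
    replace hp := Finset.HasAntidiagonal.mem_antidiagonal.1 hp
    split_ifs with h
    · by_cases h1 : G p.1
      · by_cases h2 : G p.2
        · exact absurd (hp ▸ D.add _ _ h1 h2) hn
        · rw [ih _ h h2, mul_zero]
      · rw [hf _ h1, zero_mul]
    · rfl

theorem isUnit_of (D : Data G φ x B) {f : R D} (h0 : constantCoeff (f : V) ≠ 0) : IsUnit f := by
  refine IsUnit.of_mul_eq_one (⟨(f : V)⁻¹, inv_mem D f.2⟩ : R D) ?_
  apply Subtype.ext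
  exact PowerSeries.mul_inv_cancel _ h0

instance isLocalRing (D : Data G φ x B) : IsLocalRing (R D) := by
  apply IsLocalRing.of_isUnit_or_isUnit_one_sub_self
  intro a
  by_cases h : constantCoeff (a : V) = 0
  · right
    apply isUnit_of
    simp [h]
  · left; exact isUnit_of D h

/-- Every nonzero power series divides all series of large order, with quotient in the ring. -/
theorem exists_div (D : Data G φ x B) {f : V} (hf : f ≠ 0) :
    ∃ N : ℕ, ∀ g : V, (∀ n < N, coeff n g = 0) → ∃ h : R D, g = f * (h : V) := by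
  have hex : ∃ m, coeff m f ≠ 0 := by
    by_contra hcon
    push Not at hcon
    exact hf (PowerSeries.ext (by simpa using hcon))
  obtain ⟨m, hm1, hm2⟩ : ∃ m, coeff m f ≠ 0 ∧ ∀ n < m, coeff n f = 0 := by
    classical
    refine ⟨Nat.find hex, Nat.find_spec hex, fun n hn => ?_⟩
    have := Nat.find_min hex hn
    simpa using this
  obtain ⟨f', hf'⟩ := (X_pow_dvd_iff (n := m)).2 hm2
  have h0 : constantCoeff f' ≠ 0 := by
    intro h
    apply hm1
    have h2 := coeff_X_pow_mul f' m 0
    rw [zero_add] at h2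
    rw [hf', h2]
    simpa using h
  refine ⟨m + (φ + 1), fun g hg => ?_⟩
  obtain ⟨g', hg'⟩ := (X_pow_dvd_iff (n := m + (φ + 1))).2 hg
  have hmem : Sup G (X ^ (φ + 1) * (g' * f'⁻¹)) := by
    intro n hn
    rw [coeff_X_pow_mul', if_neg]
    intro h
    apply hn
    exact D.big n (by omega)
  refine ⟨⟨X ^ (φ + 1) * (g' * f'⁻¹), hmem⟩, ?_⟩
  change g = f * (X ^ (φ + 1) * (g' * f'⁻¹))
  have h1 := PowerSeries.mul_inv_cancel f' h0
  calc g = X ^ m * X ^ (φ + 1) * g' * (f' * f'⁻¹) := by rw [h1, hg', pow_add, mul_one]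
    _ = (X ^ m * f') * (X ^ (φ + 1) * (g' * f'⁻¹)) := by ring
    _ = _ := by rw [← hf']

instance isNoetherianRing (D : Data G φ x B) : IsNoetherianRing (R D) := by
  rw [isNoetherianRing_iff_ideal_fg]
  intro A
  by_cases hA : A = ⊥
  · rw [hA]; exact Submodule.fg_bot
  obtain ⟨f, hfA, hf0⟩ := Submodule.exists_mem_ne_zero_of_ne_bot hA
  have hf0' : (f : V) ≠ 0 := fun h => hf0 (Subtype.ext h)
  obtain ⟨N, hN⟩ := exists_div D hf0'
  let ψ : R D →ₗ[ℚ] (Fin N → ℚ) :=
    { toFun := fun r i => coeff (i : ℕ) (r : V)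
      map_add' := by intro x y; funext i; simp
      map_smul' := by intro c x; funext i; simp }
  have hfg : ((A.restrictScalars ℚ).map ψ).FG := IsNoetherian.noetherian _
  obtain ⟨T, hT⟩ := hfg
  -- choose preimages
  have hpre : ∀ t ∈ T, ∃ a : R D, a ∈ A ∧ ψ a = t := by
    intro t ht
    have : t ∈ ((A.restrictScalars ℚ).map ψ) := hT ▸ Submodule.subset_span ht
    obtain ⟨a, ha, hat⟩ := this
    exact ⟨a, ha, hat⟩
  choose! pre hpreA hpreφ using hpre
  classical
  refine ⟨insert f (T.image pre), le_antisymm ?_ ?_⟩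
  · rw [Submodule.span_le]
    intro x hx
    rw [Finset.coe_insert, Set.mem_insert_iff] at hx
    rcases hx with rfl | hx
    · exact hfA
    · rw [Finset.coe_image] at hx
      obtain ⟨t, ht, rfl⟩ := hx
      exact hpreA t ht
  · intro a ha
    have h1 : ψ a ∈ (A.restrictScalars ℚ).map ψ := ⟨a, ha, rfl⟩
    have h2 : (A.restrictScalars ℚ).map ψ =
        (Submodule.span ℚ (pre '' (T : Set (Fin N → ℚ)))).map ψ := by
      rw [Submodule.map_span, ← hT]
      congr 1
      ext t
      constructor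
      · intro ht; exact ⟨pre t, ⟨t, ht, rfl⟩, hpreφ t ht⟩
      · rintro ⟨_, ⟨t', ht', rfl⟩, rfl⟩
        rw [hpreφ t' ht']; exact ht'
    rw [h2] at h1
    obtain ⟨s, hs, hsa⟩ := h1
    have hs' : s ∈ Submodule.span (R D) (pre '' (T : Set (Fin N → ℚ))) :=
      Submodule.span_le_restrictScalars ℚ (R D) _ hs
    obtain ⟨h, hh⟩ := hN ((a : V) - (s : V)) (by
      intro n hn
      have := congrFun hsa ⟨n, hn⟩
      have h3 : coeff n (s : V) = coeff n (a : V) := this
      rw [map_sub, h3, sub_self])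
    have h4 : a = f * h + s := by
      apply Subtype.ext
      change (a : V) = (f : V) * (h : V) + (s : V)
      rw [← hh]; ring
    rw [h4]
    apply Submodule.add_mem
    · rw [mul_comm]
      exact Submodule.smul_mem _ _ (Submodule.subset_span (by simp))
    · refine Submodule.span_mono ?_ hs'
      rw [Finset.coe_insert, Finset.coe_image]
      exact Set.subset_insert _ _

theorem coeff_pow_of_lt {f : V} (h0 : constantCoeff f = 0) (N n : ℕ) (hn : n < N) :
    coeff n (f ^ N) = 0 := by
  have h1 : X ∣ f := X_dvd_iff.2 h0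
  have h2 : X ^ N ∣ f ^ N := pow_dvd_pow_of_dvd h1 N
  exact X_pow_dvd_iff.1 h2 n hn

/-- The monomial `X ^ n` of the ring. -/
def mono (D : Data G φ x B) (n : ℕ) (hn : G n) : R D := ⟨X ^ n, Sup.X_pow G n hn⟩

theorem mono_ne_zero (D : Data G φ x B) (n : ℕ) (hn : G n) : mono D n hn ≠ 0 := by
  intro h
  have : (X ^ n : V) = 0 := congrArg Subtype.val h
  exact pow_ne_zero n X_ne_zero this

theorem mem_maximalIdeal (D : Data G φ x B) (a : R D) :
    a ∈ IsLocalRing.maximalIdeal (R D) ↔ constantCoeff (a : V) = 0 := by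
  constructor
  · intro ha
    by_contra hcon
    exact (IsLocalRing.mem_maximalIdeal a).1 ha (isUnit_of D hcon)
  · intro h0
    rw [IsLocalRing.mem_maximalIdeal, mem_nonunits_iff]
    intro hu
    obtain ⟨b, hb⟩ := hu.exists_right_inv
    have h1 : (a : V) * (b : V) = 1 := congrArg Subtype.val hb
    have h2 := congrArg constantCoeff h1
    rw [map_mul, h0, zero_mul, map_one] at h2
    exact zero_ne_one h2

theorem not_isField (D : Data G φ x B) : ¬ IsField (R D) := by
  intro h
  have hx : mono D (φ + 1) (D.big _ (by omega)) ≠ 0 := mono_ne_zero D _ _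
  obtain ⟨y, hy⟩ := h.mul_inv_cancel hx
  have h2 : (X ^ (φ + 1) : V) * (y : V) = 1 := congrArg Subtype.val hy
  have h3 := congrArg (coeff 0) h2
  rw [coeff_X_pow_mul'] at h3
  simp at h3

open Ring in
theorem dim_one (D : Data G φ x B) : ringKrullDim (R D) = 1 := by
  refine eq_of_le_of_not_lt (krullDimLE_iff (n := 1).mp ?_) fun h ↦ ?_
  · refine krullDimLE_one_iff_of_isPrime_bot.mpr fun P hP hP' ↦ ?_
    obtain ⟨f, hfP, hf0⟩ := Submodule.exists_mem_ne_zero_of_ne_bot hP
    have hf0' : (f : V) ≠ 0 := fun h => hf0 (Subtype.ext h)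
    obtain ⟨N, hN⟩ := exists_div D hf0'
    have hmax : IsLocalRing.maximalIdeal (R D) ≤ P := by
      intro a ha
      have h0 : constantCoeff (a : V) = 0 := (mem_maximalIdeal D a).mp ha
      obtain ⟨h, hh⟩ := hN ((a : V) ^ N) (fun n hn => coeff_pow_of_lt h0 N n hn)
      have h4 : a ^ N = f * h := by
        apply Subtype.ext
        change (a : V) ^ N = (f : V) * (h : V)
        exact hh
      apply hP'.mem_of_pow_mem N
      rw [h4]
      exact P.mul_mem_right _ hfP
    have := (IsLocalRing.maximalIdeal.isMaximal (R D)).eq_of_le hP'.ne_top hmax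
    rw [← this]
    exact IsLocalRing.maximalIdeal.isMaximal (R D)
  · have : KrullDimLE 0 (R D) := krullDimLE_iff.mpr (ENat.WithBot.lt_add_one_iff.mp h)
    exact not_isField D KrullDimLE.isField_of_isDomain

/-! ### The Gorenstein property -/

/-- Membership in the ideal generated by a monomial. -/
theorem mem_span_mono (D : Data G φ x B) (N : ℕ) (hN : G N) (a : R D) :
    a ∈ Ideal.span ({mono D N hN} : Set (R D)) ↔
      Sup (fun n => ∃ m, m + N = n ∧ G m) (a : V) := by
  rw [Ideal.mem_span_singleton']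
  constructor
  · rintro ⟨b, rfl⟩
    change Sup _ ((b : V) * X ^ N)
    rw [mul_comm]
    exact Sup.X_mul N (fun n hn => ⟨n, rfl, hn⟩) b.2
  · intro h
    obtain ⟨b, hb⟩ := (X_pow_dvd_iff (n := N)).2 (fun m hm => h m (by
      rintro ⟨k, hk, -⟩; omega) : ∀ m < N, coeff m (a : V) = 0)
    refine ⟨⟨b, ?_⟩, ?_⟩
    · refine sup_of_X_mul (A := G) (C := fun n => ∃ m, m + N = n ∧ G m) N ?_ (hb ▸ h)
      rintro n ⟨m, hm, hG⟩
      have : m = n := by omega
      rw [← this]; exact hG
    · apply Subtype.ext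
      change b * X ^ N = (a : V)
      rw [hb, mul_comm]

/-- the socle element `X ^ (N + φ)` -/
def soc (D : Data G φ x B) (N : ℕ) (hN : 0 < N) : R D :=
  mono D (N + φ) (D.big _ (by omega))

theorem soc_notMem (D : Data G φ x B) (N : ℕ) (hN : G N) (h0 : 0 < N) :
    soc D N h0 ∉ Ideal.span ({mono D N hN} : Set (R D)) := by
  rw [mem_span_mono]
  intro h
  have h1 := h (N + φ) (by
    rintro ⟨m, hm, hG⟩
    have : m = φ := by omega
    rw [this] at hG
    exact D.frob hG)
  change coeff (N + φ) (X ^ (N + φ) : V) = 0 at h1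
  rw [coeff_X_pow_self] at h1
  exact one_ne_zero h1

/-- An element multiplied by the maximal ideal into `(X ^ N)` is a multiple of the socle element
modulo `(X ^ N)`. -/
theorem socle (D : Data G φ x B) (N : ℕ) (hN : G N) (h0 : 0 < N) (a : R D)
    (ha : ∀ m ∈ IsLocalRing.maximalIdeal (R D), a * m ∈ Ideal.span ({mono D N hN} : Set (R D))) :
    ∃ c : ℚ, a - algebraMap ℚ (R D) c * soc D N h0 ∈ Ideal.span ({mono D N hN} : Set (R D)) := by
  refine ⟨coeff (N + φ) (a : V), ?_⟩
  rw [mem_span_mono]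
  intro n hn
  have hval : ((a - algebraMap ℚ (R D) (coeff (N + φ) (a : V)) * soc D N h0 : R D) : V) =
      (a : V) - PowerSeries.C (coeff (N + φ) (a : V)) * X ^ (N + φ) := rfl
  rw [hval, map_sub, coeff_C_mul, coeff_X_pow]
  by_cases hne : n = N + φ
  · rw [if_pos hne, mul_one, hne, sub_self]
  rw [if_neg hne, mul_zero, sub_zero]
  -- multiply by `X ^ (N + φ - n)`
  by_cases hlt : n < N + φ
  · have hs : G (N + φ - n) := by
      by_cases hnN : N ≤ n
      · have h1 : ¬ G (n - N) := fun h => hn ⟨n - N, by omega, h⟩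
        by_contra h2
        apply h1
        rw [D.symm (n - N) (by omega)]
        have : φ - (n - N) = N + φ - n := by omega
        rw [this]; exact h2
      · exact D.big _ (by omega)
    have hm : mono D (N + φ - n) hs ∈ IsLocalRing.maximalIdeal (R D) := by
      rw [mem_maximalIdeal]
      change constantCoeff (X ^ (N + φ - n) : V) = 0
      rw [map_pow, constantCoeff_X, zero_pow (by omega)]
    have h3 := ha _ hm
    rw [mem_span_mono] at h3
    have h4 := h3 (N + φ) (by
      rintro ⟨m, hm, hG⟩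
      have : m = φ := by omega
      rw [this] at hG
      exact D.frob hG)
    change coeff (N + φ) ((a : V) * X ^ (N + φ - n)) = 0 at h4
    rw [coeff_mul_X_pow', if_pos (by omega)] at h4
    have h5 : N + φ - (N + φ - n) = n := by omega
    rw [h5] at h4
    exact h4
  · exact absurd ⟨n - N, by omega, D.big _ (by omega)⟩ hn

/-- The Gorenstein condition of the frozen statements of `MP_fdcc6d_al`. -/
theorem gorenstein (D : Data G φ x B) :
    ∃ y : R D, y ≠ 0 ∧ y ∈ IsLocalRing.maximalIdeal (R D) ∧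
      ∀ a b : R D,
        (∀ m ∈ IsLocalRing.maximalIdeal (R D), a * m ∈ Ideal.span ({y} : Set (R D))) →
        (∀ m ∈ IsLocalRing.maximalIdeal (R D), b * m ∈ Ideal.span ({y} : Set (R D))) →
        a ∉ Ideal.span ({y} : Set (R D)) →
        ∃ r : R D, b - r * a ∈ Ideal.span ({y} : Set (R D)) := by
  have hN : G (φ + 1) := D.big _ (by omega)
  refine ⟨mono D (φ + 1) hN, mono_ne_zero D _ _, ?_, ?_⟩
  · rw [mem_maximalIdeal]
    change constantCoeff (X ^ (φ + 1) : V) = 0
    rw [map_pow, constantCoeff_X, zero_pow (by omega)]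
  intro a b ha hb hna
  obtain ⟨c, hc⟩ := socle D (φ + 1) hN (by omega) a ha
  obtain ⟨d, hd⟩ := socle D (φ + 1) hN (by omega) b hb
  have hc0 : c ≠ 0 := by
    rintro rfl
    rw [map_zero, zero_mul, sub_zero] at hc
    exact hna hc
  refine ⟨algebraMap ℚ (R D) (d / c), ?_⟩
  have h1 : b - algebraMap ℚ (R D) (d / c) * a =
      (b - algebraMap ℚ (R D) d * soc D (φ + 1) (by omega)) -
        algebraMap ℚ (R D) (d / c) * (a - algebraMap ℚ (R D) c * soc D (φ + 1) (by omega)) := by
    have h2 : algebraMap ℚ (R D) (d / c) * algebraMap ℚ (R D) c = algebraMap ℚ (R D) d := by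
      rw [← map_mul, div_mul_cancel₀ _ hc0]
    rw [mul_sub, ← mul_assoc, h2]
    ring
  rw [h1]
  exact Ideal.sub_mem _ hd (Ideal.mul_mem_left _ _ hc)

/-- An ideal strictly above `(X ^ N)` contains the socle element. -/
theorem soc_mem (D : Data G φ x B) (N : ℕ) (hN : G N) (h0 : 0 < N) (J : Ideal (R D))
    (hle : Ideal.span ({mono D N hN} : Set (R D)) ≤ J) (a : R D) (haJ : a ∈ J)
    (ha : a ∉ Ideal.span ({mono D N hN} : Set (R D))) : soc D N h0 ∈ J := by
  classical
  rw [mem_span_mono] at ha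
  have hex : ∃ n, (¬ ∃ m, m + N = n ∧ G m) ∧ coeff n (a : V) ≠ 0 := by
    by_contra hcon
    push Not at hcon
    apply ha
    intro n hn
    push Not at hn
    exact hcon n hn
  obtain ⟨n, ⟨hn1, hn2⟩, hmin⟩ : ∃ n, ((¬ ∃ m, m + N = n ∧ G m) ∧ coeff n (a : V) ≠ 0) ∧
      ∀ k < n, ¬ ((¬ ∃ m, m + N = k ∧ G m) ∧ coeff k (a : V) ≠ 0) :=
    ⟨Nat.find hex, Nat.find_spec hex, fun k hk => Nat.find_min hex hk⟩
  have hle2 : n ≤ N + φ := by
    by_contra hcon
    exact hn1 ⟨n - N, by omega, D.big _ (by omega)⟩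
  have hs : G (N + φ - n) := by
    by_cases hnN : N ≤ n
    · have h1 : ¬ G (n - N) := fun h => hn1 ⟨n - N, by omega, h⟩
      by_contra h2
      apply h1
      rw [D.symm (n - N) (by omega)]
      have : φ - (n - N) = N + φ - n := by omega
      rw [this]; exact h2
    · exact D.big _ (by omega)
  set c : ℚ := coeff n (a : V) with hc
  have h1 : algebraMap ℚ (R D) c * soc D N h0 - a * mono D (N + φ - n) hs ∈
      Ideal.span ({mono D N hN} : Set (R D)) := by
    rw [mem_span_mono]
    intro k hk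
    have hval : ((algebraMap ℚ (R D) c * soc D N h0 - a * mono D (N + φ - n) hs : R D) : V) =
        PowerSeries.C c * X ^ (N + φ) - (a : V) * X ^ (N + φ - n) := rfl
    rw [hval, map_sub, coeff_C_mul, coeff_X_pow]
    by_cases hk2 : k = N + φ
    · have h5 : N + φ - (N + φ - n) = n := by omega
      rw [if_pos hk2, mul_one, hk2, coeff_mul_X_pow', if_pos (by omega), h5, hc, sub_self]
    · rw [if_neg hk2, mul_zero, zero_sub, neg_eq_zero]
      rw [coeff_mul_X_pow']
      split_ifs with h6
      · -- exponent `j = k - (N + φ - n)`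
        have hkle : k ≤ N + φ := by
          by_contra hcon
          exact hk ⟨k - N, by omega, D.big _ (by omega)⟩
        by_contra h7
        refine hmin (k - (N + φ - n)) (by omega) ⟨?_, h7⟩
        rintro ⟨m, hm, hG⟩
        apply hk
        exact ⟨m + (N + φ - n), by omega, D.add _ _ hG hs⟩
      · rfl
  have h2 : algebraMap ℚ (R D) c * soc D N h0 ∈ J := by
    have h3 := J.add_mem (hle h1) (J.mul_mem_right (mono D (N + φ - n) hs) haJ)
    rw [sub_add_cancel] at h3
    exact h3
  have h4 := J.mul_mem_left (algebraMap ℚ (R D) c⁻¹) h2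
  rw [← mul_assoc, ← map_mul, inv_mul_cancel₀ hn2, map_one, one_mul] at h4
  exact h4

/-- The Gorenstein condition of the frozen statements of `MP_66a32a_al`. -/
theorem infIrred (D : Data G φ x B) :
    ∃ y ∈ IsLocalRing.maximalIdeal (R D), y ≠ 0 ∧ InfIrred (Ideal.span {y}) := by
  have hN : G (φ + 1) := D.big _ (by omega)
  have hmem : mono D (φ + 1) hN ∈ IsLocalRing.maximalIdeal (R D) := by
    rw [mem_maximalIdeal]
    change constantCoeff (X ^ (φ + 1) : V) = 0
    rw [map_pow, constantCoeff_X, zero_pow (by omega)]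
  refine ⟨mono D (φ + 1) hN, hmem, mono_ne_zero D _ _, ?_, ?_⟩
  · intro h
    have h1 : Ideal.span ({mono D (φ + 1) hN} : Set (R D)) ≤ IsLocalRing.maximalIdeal (R D) := by
      rw [Ideal.span_le, Set.singleton_subset_iff]; exact hmem
    have h2 : (⊤ : Ideal (R D)) ≤ Ideal.span ({mono D (φ + 1) hN} : Set (R D)) := h le_top
    exact (IsLocalRing.maximalIdeal.isMaximal (R D)).ne_top (top_le_iff.mp (h2.trans h1))
  · intro J1 J2 h12
    by_contra hcon
    push Not at hcon
    obtain ⟨hJ1, hJ2⟩ := hcon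
    have hle1 : Ideal.span ({mono D (φ + 1) hN} : Set (R D)) ≤ J1 := h12 ▸ inf_le_left
    have hle2 : Ideal.span ({mono D (φ + 1) hN} : Set (R D)) ≤ J2 := h12 ▸ inf_le_right
    obtain ⟨a1, ha1, hb1⟩ := SetLike.exists_of_lt (lt_of_le_of_ne hle1 (Ne.symm hJ1))
    obtain ⟨a2, ha2, hb2⟩ := SetLike.exists_of_lt (lt_of_le_of_ne hle2 (Ne.symm hJ2))
    have h1 := soc_mem D (φ + 1) hN (by omega) J1 hle1 a1 ha1 hb1
    have h2 := soc_mem D (φ + 1) hN (by omega) J2 hle2 a2 ha2 hb2
    have h3 : soc D (φ + 1) (by omega) ∈ J1 ⊓ J2 := ⟨h1, h2⟩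
    rw [h12] at h3
    exact soc_notMem D (φ + 1) hN (by omega) h3

end

end Pool.Agent.W416.HW
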