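import Pool.Agent.W416.HW.Basic

set_option autoImplicit false
open TensorProduct PowerSeries

/-!
The fractional ideal `M = (1, X ^ x)` over the ring `R D` of a symmetric numerical semigroup with the
product property: `M ⊗ M*` is torsion-free, every self-extension of `M` splits, and `M` is not
free.
-/

namespace Pool.Agent.W416.HW

noncomputable section

variable {G : ℕ → Prop} {φ x B : ℕ}

variable (G x) in
/-- Exponents `n` with `n` and `n + x` in the semigroup. -/
def F (n : ℕ) : Prop := G n ∧ G (n + x)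

variable (G x) in
/-- Exponents `n` with `n`, `n + x` and `n + 2 x` in the semigroup. -/
def F2 (n : ℕ) : Prop := G n ∧ G (n + x) ∧ G (n + 2 * x)

theorem E_of_G {n : ℕ} (h : G n) : E G x n := Or.inl h

/-- generator `1` of `M` -/
def u0 (D : Data G φ x B) : M D := ⟨1, by
  have := Sup.X_pow (E G x) 0 (E_of_G D.zero)
  rwa [pow_zero] at this⟩

/-- generator `X ^ x` of `M` -/
def ux (D : Data G φ x B) : M D := ⟨X ^ x, Sup.X_pow (E G x) x (Or.inr ⟨0, by simp, D.zero⟩)⟩

theorem u0_val (D : Data G φ x B) : ((u0 D : M D) : V) = 1 := rfl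
theorem ux_val (D : Data G φ x B) : ((ux D : M D) : V) = X ^ x := rfl

/-- Multiplication by `X ^ (φ + 1)` from the module to the ring. -/
def emb (D : Data G φ x B) : M D →ₗ[R D] R D where
  toFun m := ⟨X ^ (φ + 1) * (m : V), Sup.X_mul (A := fun _ => True) (φ + 1)
    (fun n _ => D.big _ (by omega)) (fun n hn => absurd trivial hn)⟩
  map_add' := by
    intro a b
    apply Subtype.ext
    change X ^ (φ + 1) * ((a : V) + (b : V)) = X ^ (φ + 1) * (a : V) + X ^ (φ + 1) * (b : V)
    ring
  map_smul' := by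
    intro r a
    apply Subtype.ext
    change X ^ (φ + 1) * ((r : V) * (a : V)) = (r : V) * (X ^ (φ + 1) * (a : V))
    ring

theorem emb_val (D : Data G φ x B) (m : M D) : ((emb D m : R D) : V) = X ^ (φ + 1) * (m : V) := rfl

theorem emb_inj (D : Data G φ x B) : Function.Injective (emb D) := by
  intro a b h
  have h1 : X ^ (φ + 1) * (a : V) = X ^ (φ + 1) * (b : V) := congrArg Subtype.val h
  exact Subtype.ext (mul_left_cancel₀ (pow_ne_zero _ X_ne_zero) h1)

instance noethM (D : Data G φ x B) : IsNoetherian (R D) (M D) :=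
  isNoetherian_of_injective (emb D) (emb_inj D)

instance finiteM (D : Data G φ x B) : Module.Finite (R D) (M D) := inferInstance

theorem torsionFree (D : Data G φ x B) (r : R D) (m : M D) (h : r • m = 0) : r = 0 ∨ m = 0 := by
  have h1 : (r : V) * (m : V) = 0 := congrArg Subtype.val h
  rcases mul_eq_zero.mp h1 with h2 | h2
  · left; exact Subtype.ext h2
  · right; exact Subtype.ext h2

theorem torsion_M (D : Data G φ x B) : Submodule.torsion (R D) (M D) = ⊥ := by
  rw [eq_bot_iff]
  intro m hm
  rw [Submodule.mem_torsion_iff] at hm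
  obtain ⟨a, ha⟩ := hm
  rw [Submodule.mem_bot]
  rcases torsionFree D (a : R D) m ha with h | h
  · exact absurd h (nonZeroDivisors.ne_zero a.2)
  · exact h

/-! ### Decomposition of power series -/

open Classical in
/-- The part of `f` with exponents in `P`, divided by `X ^ d`. -/
def pick (P : ℕ → Prop) (d : ℕ) (f : V) : V :=
  PowerSeries.mk fun n => if P (n + d) then coeff (n + d) f else 0

open Classical in
theorem coeff_pick (P : ℕ → Prop) (d : ℕ) (f : V) (n : ℕ) :
    coeff n (X ^ d * pick P d f) = if d ≤ n ∧ P n then coeff n f else 0 := by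
  rw [coeff_X_pow_mul']
  by_cases h : d ≤ n
  · rw [if_pos h, pick, coeff_mk, Nat.sub_add_cancel h]
    by_cases h2 : P n
    · rw [if_pos h2, if_pos ⟨h, h2⟩]
    · rw [if_neg h2, if_neg (fun h' => h2 h'.2)]
  · rw [if_neg h, if_neg (fun h' => h h'.1)]

theorem sup_pick (P A : ℕ → Prop) (d : ℕ) (f : V) (h : ∀ n, P (n + d) → A n) :
    Sup A (pick P d f) := by
  intro n hn
  rw [pick, coeff_mk, if_neg (fun h' => hn (h n h'))]

/-- `M` is generated by `1` and `X ^ x`. -/
theorem exists_decomp (D : Data G φ x B) (m : M D) :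
    ∃ r t : R D, m = r • u0 D + t • ux D := by
  classical
  refine ⟨⟨pick G 0 (m : V), sup_pick _ _ _ _ (fun n h => h)⟩,
    ⟨pick (fun n => ¬ G n ∧ E G x n) x (m : V), sup_pick _ _ _ _ ?_⟩, ?_⟩
  · rintro n ⟨h1, h2⟩
    rcases h2 with h2 | ⟨k, hk, hG⟩
    · exact absurd h2 h1
    · have : k = n := by omega
      rw [← this]; exact hG
  · apply Subtype.ext
    change (m : V) = pick G 0 (m : V) * 1 + pick (fun n => ¬ G n ∧ E G x n) x (m : V) * X ^ x
    rw [mul_one, mul_comm]
    conv_rhs => rw [← one_mul (pick G 0 (m : V)), ← pow_zero (X : V)]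
    ext n
    rw [map_add, coeff_pick, coeff_pick]
    by_cases h1 : G n
    · rw [if_pos ⟨Nat.zero_le _, h1⟩, if_neg (fun h => h.2.1 h1), add_zero]
    · rw [if_neg (fun h => h1 h.2), zero_add]
      by_cases h2 : E G x n
      · have hxn : x ≤ n := by
          rcases h2 with h2 | ⟨k, hk, -⟩
          · exact absurd h2 h1
          · omega
        rw [if_pos ⟨hxn, h1, h2⟩]
      · rw [if_neg (fun h => h2 h.2.2)]
        exact m.2 n h2

/-! ### The dual -/

/-- the fractional ideal of the dual -/
def FI (D : Data G φ x B) : Submodule (R D) V where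
  carrier := {f | Sup (F G x) f}
  add_mem' := fun {a b} ha hb => Sup.add ha hb
  zero_mem' := Sup.zero
  smul_mem' := by
    intro c y hy
    refine Sup.mul (A := G) (B := F G x) ?_ c.2 hy
    rintro i j hi ⟨hj1, hj2⟩
    exact ⟨D.add i j hi hj1, by rw [add_assoc]; exact D.add i _ hi hj2⟩

theorem FE_add (D : Data G φ x B) (i j : ℕ) (hi : F G x i) (hj : E G x j) : G (i + j) := by
  rcases hj with hj | ⟨m, rfl, hm⟩
  · exact D.add _ _ hi.1 hj
  · have : i + (m + x) = (i + x) + m := by ring
    rw [this]; exact D.add _ _ hi.2 hm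

/-- the functional given by multiplication -/
def dl (D : Data G φ x B) : FI D →ₗ[R D] Module.Dual (R D) (M D) where
  toFun c :=
    { toFun := fun m => ⟨(c : V) * (m : V), Sup.mul (FE_add D) c.2 m.2⟩
      map_add' := by
        intro a b
        apply Subtype.ext
        change (c : V) * ((a : V) + (b : V)) = (c : V) * (a : V) + (c : V) * (b : V)
        ring
      map_smul' := by
        intro r a
        apply Subtype.ext
        change (c : V) * ((r : V) * (a : V)) = (r : V) * ((c : V) * (a : V))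
        ring }
  map_add' := by
    intro a b
    apply LinearMap.ext
    intro m
    apply Subtype.ext
    change ((a : V) + (b : V)) * (m : V) = (a : V) * (m : V) + (b : V) * (m : V)
    ring
  map_smul' := by
    intro r a
    apply LinearMap.ext
    intro m
    apply Subtype.ext
    change ((r : V) * (a : V)) * (m : V) = (r : V) * ((a : V) * (m : V))
    ring

theorem dl_apply (D : Data G φ x B) (c : FI D) (m : M D) :
    ((dl D c m : R D) : V) = (c : V) * (m : V) := rfl

theorem dual_apply (D : Data G φ x B) (ψ : Module.Dual (R D) (M D)) (m : M D) :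
    ((ψ m : R D) : V) = (m : V) * ((ψ (u0 D) : R D) : V) := by
  have h1 : (emb D m) • (u0 D) = (mono D (φ + 1) (D.big _ (by omega))) • m := by
    apply Subtype.ext
    change X ^ (φ + 1) * (m : V) * 1 = X ^ (φ + 1) * (m : V)
    ring
  have h2 := congrArg ψ h1
  rw [map_smul, map_smul] at h2
  have h3 : X ^ (φ + 1) * (m : V) * ((ψ (u0 D) : R D) : V) = X ^ (φ + 1) * ((ψ m : R D) : V) :=
    congrArg Subtype.val h2
  rw [mul_assoc] at h3
  exact (mul_left_cancel₀ (pow_ne_zero _ X_ne_zero) h3).symm

theorem dual_sup (D : Data G φ x B) (ψ : Module.Dual (R D) (M D)) :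
    Sup (F G x) ((ψ (u0 D) : R D) : V) := by
  intro n hn
  by_cases h1 : G n
  · have h2 : ¬ G (n + x) := fun h => hn ⟨h1, h⟩
    have h3 := (ψ (ux D)).2 (n + x) h2
    rw [dual_apply D ψ (ux D), ux_val, coeff_X_pow_mul] at h3
    exact h3
  · exact (ψ (u0 D)).2 n h1

/-- every functional is a multiplication -/
theorem exists_dl (D : Data G φ x B) (ψ : Module.Dual (R D) (M D)) :
    ψ = dl D ⟨((ψ (u0 D) : R D) : V), dual_sup D ψ⟩ := by
  apply LinearMap.ext
  intro m
  apply Subtype.ext
  rw [dual_apply D ψ m, dl_apply]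
  ring

/-! ### The tensor product -/

/-- the fractional ideal of the series `v` with `v` and `X ^ x v` in the dual ideal -/
def FI2 (D : Data G φ x B) : Submodule (R D) V where
  carrier := {f | Sup (F2 G x) f}
  add_mem' := fun {a b} ha hb => Sup.add ha hb
  zero_mem' := Sup.zero
  smul_mem' := by
    intro c y hy
    refine Sup.mul (A := G) (B := F2 G x) ?_ c.2 hy
    rintro i j hi ⟨hj1, hj2, hj3⟩
    exact ⟨D.add i j hi hj1, by rw [add_assoc]; exact D.add i _ hi hj2,
      by rw [add_assoc]; exact D.add i _ hi hj3⟩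

/-- inclusion -/
def incl (D : Data G φ x B) : FI2 D →ₗ[R D] FI D where
  toFun v := ⟨(v : V), Sup.mono (fun _ h => ⟨h.1, h.2.1⟩) v.2⟩
  map_add' _ _ := rfl
  map_smul' _ _ := rfl

/-- multiplication by `X ^ x` -/
def shift (D : Data G φ x B) : FI2 D →ₗ[R D] FI D where
  toFun v := ⟨X ^ x * (v : V), Sup.X_mul (A := F2 G x) (C := F G x) x
    (fun n h => ⟨h.2.1, by
      have : n + x + x = n + 2 * x := by ring
      rw [this]; exact h.2.2⟩) v.2⟩
  map_add' a b := by
    apply Subtype.ext
    change X ^ x * ((a : V) + (b : V)) = X ^ x * (a : V) + X ^ x * (b : V)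
    ring
  map_smul' r a := by
    apply Subtype.ext
    change X ^ x * ((r : V) * (a : V)) = (r : V) * (X ^ x * (a : V))
    ring

/-- the two maps to be compared -/
def PP (D : Data G φ x B) : FI2 D →ₗ[R D] (M D) ⊗[R D] (Module.Dual (R D) (M D)) :=
  (TensorProduct.mk (R D) (M D) (Module.Dual (R D) (M D)) (ux D)) ∘ₗ (dl D) ∘ₗ (incl D)

def QQ (D : Data G φ x B) : FI2 D →ₗ[R D] (M D) ⊗[R D] (Module.Dual (R D) (M D)) :=
  (TensorProduct.mk (R D) (M D) (Module.Dual (R D) (M D)) (u0 D)) ∘ₗ (dl D) ∘ₗ (shift D)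

theorem F_add_F (D : Data G φ x B) (i j : ℕ) (hi : F G x i) (hj : F G x j) : F2 G x (i + j) := by
  refine ⟨D.add _ _ hi.1 hj.1, ?_, ?_⟩
  · rw [add_assoc]; exact D.add _ _ hi.1 hj.2
  · have : i + j + 2 * x = (i + x) + (j + x) := by ring
    rw [this]; exact D.add _ _ hi.2 hj.2

/-- the product of a monomial of the dual ideal with an element of the dual ideal -/
def pr (D : Data G φ x B) (a : ℕ) (ha : F G x a) (w : FI D) : FI2 D :=
  ⟨X ^ a * (w : V), Sup.mul (A := fun i => i = a) (B := F G x) (C := F2 G x)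
    (by intro i j hi hj; rw [hi]; exact F_add_F D a j ha hj) (Sup.X_pow (fun i => i = a) a rfl) w.2⟩

theorem PQ_pr (D : Data G φ x B) (a : ℕ) (ha : F G x a) (w : FI D) :
    PP D (pr D a ha w) = QQ D (pr D a ha w) := by
  change ux D ⊗ₜ[R D] dl D (incl D (pr D a ha w)) = u0 D ⊗ₜ[R D] dl D (shift D (pr D a ha w))
  have h1 : incl D (pr D a ha w) = mono D a ha.1 • w := by
    apply Subtype.ext; rfl
  have h2 : shift D (pr D a ha w) = mono D (a + x) ha.2 • w := by
    apply Subtype.ext
    change X ^ x * (X ^ a * (w : V)) = X ^ (a + x) * (w : V)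
    rw [pow_add]; ring
  have h3 : mono D a ha.1 • ux D = mono D (a + x) ha.2 • u0 D := by
    apply Subtype.ext
    change X ^ a * X ^ x = X ^ (a + x) * (1 : V)
    rw [pow_add, mul_one]
  rw [h1, h2, map_smul, map_smul, ← smul_tmul, h3, smul_tmul]

/-- every element of `FI2` is a finite sum of products -/
theorem exists_sum (D : Data G φ x B) (v : FI2 D) :
    ∃ w : ℕ → FI2 D, (∀ a, PP D (w a) = QQ D (w a)) ∧ v = ∑ a ∈ Finset.range B, w a := by
  classical
  have hprod : ∀ n, F2 G x n → ∃ j, j < B ∧ j ≤ n ∧ F G x j ∧ F G x (n - j) := by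
    rintro n ⟨h1, h2, h3⟩
    obtain ⟨j, k, hjk, hjB, a1, a2, a3, a4⟩ := D.prod n h1 h2 h3
    refine ⟨j, hjB, by omega, ⟨a1, a2⟩, ?_⟩
    have : n - j = k := by omega
    rw [this]; exact ⟨a3, a4⟩
  choose! jj hjB hjn hjF hjF' using hprod
  let P : ℕ → ℕ → Prop := fun a n => F2 G x n ∧ jj n = a
  have hsup : ∀ a, Sup (F G x) (pick (P a) a (v : V)) := by
    intro a
    refine sup_pick _ _ _ _ ?_
    rintro n ⟨h1, h2⟩
    have h3 := hjF' _ h1
    rw [h2] at h3
    have : n + a - a = n := by omega
    rw [this] at h3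
    exact h3
  refine ⟨fun a => if h : F G x a then pr D a h ⟨pick (P a) a (v : V), hsup a⟩ else 0, ?_, ?_⟩
  · intro a
    by_cases h : F G x a
    · simp only [dif_pos h]
      exact PQ_pr D a h _
    · simp only [dif_neg h, map_zero]
  · apply Subtype.ext
    have hsum : ((∑ a ∈ Finset.range B, (if h : F G x a then
        pr D a h ⟨pick (P a) a (v : V), hsup a⟩ else 0) : FI2 D) : V) =
        ∑ a ∈ Finset.range B, X ^ a * pick (P a) a (v : V) := by
      rw [Submodule.coe_sum]
      refine Finset.sum_congr rfl ?_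
      intro a _
      by_cases h : F G x a
      · rw [dif_pos h]; rfl
      · rw [dif_neg h]
        have h0 : pick (P a) a (v : V) = 0 := by
          ext n
          rw [pick, coeff_mk, if_neg, map_zero]
          rintro ⟨h1, h2⟩
          apply h
          rw [← h2]; exact hjF _ h1
        rw [h0, mul_zero]; rfl
    rw [hsum]
    ext n
    rw [map_sum]
    simp only [coeff_pick]
    by_cases h2 : F2 G x n
    · rw [Finset.sum_eq_single (jj n)]
      · rw [if_pos ⟨hjn n h2, h2, rfl⟩]
      · intro b _ hb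
        rw [if_neg]
        rintro ⟨-, -, h⟩
        exact hb h.symm
      · intro h
        exact absurd (Finset.mem_range.mpr (hjB n h2)) h
    · rw [v.2 n h2]
      symm
      apply Finset.sum_eq_zero
      intro a _
      rw [if_neg]
      rintro ⟨-, h, -⟩
      exact h2 h

theorem PQ (D : Data G φ x B) (v : FI2 D) : PP D v = QQ D v := by
  obtain ⟨w, hw, rfl⟩ := exists_sum D v
  rw [map_sum, map_sum]
  exact Finset.sum_congr rfl fun a _ => hw a

theorem two_term (D : Data G φ x B) (z : (M D) ⊗[R D] (Module.Dual (R D) (M D))) :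
    ∃ α β : Module.Dual (R D) (M D), z = u0 D ⊗ₜ[R D] α + ux D ⊗ₜ[R D] β := by
  induction z using TensorProduct.induction_on with
  | zero => exact ⟨0, 0, by simp⟩
  | tmul m ψ =>
    obtain ⟨r, s, h⟩ := exists_decomp D m
    refine ⟨r • ψ, s • ψ, ?_⟩
    rw [h, add_tmul, smul_tmul, smul_tmul]
  | add z w hz hw =>
    obtain ⟨a1, a2, ha⟩ := hz
    obtain ⟨b1, b2, hb⟩ := hw
    refine ⟨a1 + b1, a2 + b2, ?_⟩
    rw [ha, hb, tmul_add, tmul_add]
    abel

/-- `M ⊗ M*` is torsion-free. -/
theorem torsion_bot (D : Data G φ x B) :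
    Submodule.torsion (R D) ((M D) ⊗[R D] (Module.Dual (R D) (M D))) = ⊥ := by
  rw [eq_bot_iff]
  intro z hz
  rw [Submodule.mem_torsion_iff] at hz
  obtain ⟨a, ha⟩ := hz
  obtain ⟨α, β, rfl⟩ := two_term D z
  have ha' : (a : R D) • (u0 D ⊗ₜ[R D] α + ux D ⊗ₜ[R D] β) = 0 := ha
  have h2 := congrArg (contractRight (R D) (M D)) ha'
  rw [map_smul, map_add, contractRight_apply, contractRight_apply, map_zero, smul_eq_mul,
    mul_eq_zero] at h2
  have h3 : (α (u0 D) : R D) + β (ux D) = 0 := by
    rcases h2 with h2 | h2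
    · exact absurd h2 (nonZeroDivisors.ne_zero a.2)
    · exact h2
  have h4 : ((α (u0 D) : R D) : V) + ((β (ux D) : R D) : V) = 0 := congrArg Subtype.val h3
  rw [dual_apply D β (ux D), ux_val] at h4
  have h5 : X ^ x * ((β (u0 D) : R D) : V) = -((α (u0 D) : R D) : V) := by
    linear_combination h4
  have hv : Sup (F2 G x) ((β (u0 D) : R D) : V) := by
    have e1 := dual_sup D β
    have e2 : Sup (F G x) (X ^ x * ((β (u0 D) : R D) : V)) := by
      rw [h5]; exact (dual_sup D α).neg
    intro n hn
    by_cases h6 : F G x n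
    · have h7 := e2 (n + x) (fun h => hn ⟨h6.1, h6.2, by
        have : n + 2 * x = n + x + x := by ring
        rw [this]; exact h.2⟩)
      rwa [coeff_X_pow_mul] at h7
    · exact e1 n h6
  have h8 := PQ D ⟨_, hv⟩
  have h9 : ux D ⊗ₜ[R D] β = PP D ⟨_, hv⟩ := by
    conv_lhs => rw [exists_dl D β]
    rfl
  have h10 : α + dl D (shift D ⟨_, hv⟩) = 0 := by
    apply LinearMap.ext
    intro m
    apply Subtype.ext
    change ((α m : R D) : V) + (X ^ x * ((β (u0 D) : R D) : V)) * (m : V) = 0
    rw [dual_apply D α m, h5]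
    ring
  have h11 : QQ D ⟨_, hv⟩ = u0 D ⊗ₜ[R D] dl D (shift D ⟨_, hv⟩) := rfl
  rw [Submodule.mem_bot, h9, h8, h11, ← tmul_add, h10, tmul_zero]

/-! ### `M` is not free -/

theorem not_free (D : Data G φ x B) : ¬ Module.Free (R D) (M D) := by
  intro hfree
  let b := Module.Free.chooseBasis (R D) (M D)
  have hcomm : ∀ m m' : M D, (emb D m') • m = (emb D m) • m' := by
    intro m m'
    apply Subtype.ext
    change X ^ (φ + 1) * (m' : V) * (m : V) = X ^ (φ + 1) * (m : V) * (m' : V)
    ring
  have hsub : ∀ i j : Module.Free.ChooseBasisIndex (R D) (M D), i = j := by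
    intro i j
    by_contra hij
    have h1 := congrArg (fun y => b.repr y i) (hcomm (b i) (b j))
    simp only [map_smul, Module.Basis.repr_self, Finsupp.smul_apply, Finsupp.single_eq_same,
      smul_eq_mul, mul_one] at h1
    rw [Finsupp.single_eq_of_ne (by tauto)] at h1
    rw [mul_zero] at h1
    exact b.ne_zero j (emb_inj D (by rw [h1, map_zero]))
  have hu0 : u0 D ≠ 0 := by
    intro h
    have : (1 : V) = 0 := congrArg Subtype.val h
    exact one_ne_zero this
  have hne : Nonempty (Module.Free.ChooseBasisIndex (R D) (M D)) := by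
    by_contra hemp
    rw [not_nonempty_iff] at hemp
    exact hu0 (b.repr.injective (Subsingleton.elim _ _))
  obtain ⟨i⟩ := hne
  have hrepr : ∀ m : M D, m = (b.repr m i) • b i := by
    intro m
    apply b.repr.injective
    ext j
    rw [hsub j i]
    simp
  set r : R D := b.repr (u0 D) i
  set s : R D := b.repr (ux D) i
  have hr : (r : V) * (b i : V) = 1 := (congrArg Subtype.val (hrepr (u0 D))).symm
  have hs : (s : V) * (b i : V) = X ^ x := (congrArg Subtype.val (hrepr (ux D))).symm
  -- `s = X ^ x * r`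
  have hsr : (s : V) = X ^ x * (r : V) := by
    calc (s : V) = (s : V) * ((r : V) * (b i : V)) := by rw [hr, mul_one]
      _ = ((s : V) * (b i : V)) * (r : V) := by ring
      _ = X ^ x * (r : V) := by rw [hs]
  have h1 := s.2 x D.hx
  rw [hsr] at h1
  have h2 := coeff_X_pow_mul (r : V) x 0
  rw [zero_add] at h2
  rw [h2] at h1
  have h3 := congrArg constantCoeff hr
  rw [map_mul, map_one, ← coeff_zero_eq_constantCoeff_apply, h1, zero_mul] at h3
  exact zero_ne_one h3

end

end Pool.Agent.W416.HW
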